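import Mathlib

/-!
Definitions for `MP_88803c_co` (antichains in ideal posets).
-/

universe u

namespace Pool.Agent.H1.Ideals

open Cardinal

/-- The class `D(κ)`: the partial order `P` contains no antichain of cardinality `κ`. -/
def InD (κ : Cardinal.{u}) (P : Type u) [PartialOrder P] : Prop :=
  ¬ ∃ A : Set P, IsAntichain (· ≤ ·) A ∧ #A = κ

end Pool.Agent.H1.Ideals
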