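import Mathlib

/-!
A weak form of the Erdős–Rado theorem for triples.
-/

universe u

namespace Pool.Agent.H1.Ideals

open Cardinal Order

section EndHom

variable {S I C : Type u} [LinearOrder S] [WellFoundedLT S] [LinearOrder I] [WellFoundedLT I]

/-- candidates for the `i`-th term -/
def cand (c : S → S → S → C) (δ : S) (i : I) (a : ∀ j : I, j < i → S) : Set S :=
  {s | (∀ j (hj : j < i), a j hj < s) ∧
    ∀ j (hj : j < i) k (hk : k < i), c (a j hj) (a k hk) s = c (a j hj) (a k hk) δ}

open Classical in
/-- the canonical end-homogeneous sequence below `δ` -/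
noncomputable def seq (c : S → S → S → C) (δ : S) : I → S :=
  (wellFounded_lt : WellFounded ((· < ·) : I → I → Prop)).fix
    (fun i a => if h : (cand c δ i a).Nonempty then
      (wellFounded_lt : WellFounded ((· < ·) : S → S → Prop)).min (cand c δ i a) h else δ)

open Classical in
theorem seq_eq (c : S → S → S → C) (δ : S) (i : I) :
    (seq c δ : I → S) i = if h : (cand c δ i (fun j _ => (seq c δ : I → S) j)).Nonempty then
      (wellFounded_lt : WellFounded ((· < ·) : S → S → Prop)).min
        (cand c δ i (fun j _ => (seq c δ : I → S) j)) h else δ := by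
  unfold seq
  rw [WellFounded.fix_eq]

theorem mem_cand (c : S → S → S → C) (δ : S) (i : I)
    (h : ∀ j < i, (seq c δ : I → S) j < δ) :
    δ ∈ cand c δ i (fun j _ => (seq c δ : I → S) j) :=
  ⟨fun j hj => h j hj, fun _ _ _ _ => rfl⟩

theorem seq_mem (c : S → S → S → C) (δ : S) (i : I)
    (h : ∀ j < i, (seq c δ : I → S) j < δ) :
    (seq c δ : I → S) i ∈ cand c δ i (fun j _ => (seq c δ : I → S) j) := by
  have hne : (cand c δ i (fun j _ => (seq c δ : I → S) j)).Nonempty := ⟨δ, mem_cand c δ i h⟩
  rw [seq_eq, dif_pos hne]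
  exact WellFounded.min_mem _ _ hne

theorem seq_le (c : S → S → S → C) (δ : S) (i : I)
    (h : ∀ j < i, (seq c δ : I → S) j < δ) :
    (seq c δ : I → S) i ≤ δ := by
  have hne : (cand c δ i (fun j _ => (seq c δ : I → S) j)).Nonempty := ⟨δ, mem_cand c δ i h⟩
  rw [seq_eq, dif_pos hne]
  exact not_lt.mp (WellFounded.not_lt_min _ _ (mem_cand c δ i h))

/-- End-homogenization. -/
theorem endhom (c : S → S → S → C) (hcard : #(I × (I → I → C)) < #S) :
    ∃ a : I → S, StrictMono a ∧
      ∃ d : I → I → C, ∀ i j k, j < i → k < i → c (a j) (a k) (a i) = d j k := by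
  classical
  by_cases hex : ∃ δ : S, ∀ i : I, (seq c δ : I → S) i < δ
  · obtain ⟨δ, hδ⟩ := hex
    refine ⟨seq c δ, ?_, fun j k => c ((seq c δ : I → S) j) ((seq c δ : I → S) k) δ, ?_⟩
    · intro j i hji
      exact (seq_mem c δ i (fun j _ => hδ j)).1 j hji
    · intro i j k hj hk
      exact (seq_mem c δ i (fun j _ => hδ j)).2 j hj k hk
  · exfalso
    push Not at hex
    -- the first index at which the sequence reaches `δ`
    have hne : ∀ δ : S, {i : I | δ ≤ (seq c δ : I → S) i}.Nonempty := fun δ => hex δ
    let ρ : S → I := fun δ =>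
      (wellFounded_lt : WellFounded ((· < ·) : I → I → Prop)).min _ (hne δ)
    have hρ1 : ∀ δ, δ ≤ (seq c δ : I → S) (ρ δ) := fun δ =>
      WellFounded.min_mem (wellFounded_lt : WellFounded ((· < ·) : I → I → Prop)) _ (hne δ)
    have hρ2 : ∀ δ, ∀ j < ρ δ, (seq c δ : I → S) j < δ := by
      intro δ j hj
      by_contra hcon
      exact WellFounded.not_lt_min (wellFounded_lt : WellFounded ((· < ·) : I → I → Prop))
        {i : I | δ ≤ (seq c δ : I → S) i} (x := j) (not_lt.mp hcon) hj
    have hρ3 : ∀ δ, (seq c δ : I → S) (ρ δ) = δ := fun δ =>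
      le_antisymm (seq_le c δ (ρ δ) (hρ2 δ)) (hρ1 δ)
    let code : S → I × (I → I → C) := fun δ =>
      (ρ δ, fun j k => c ((seq c δ : I → S) j) ((seq c δ : I → S) k) δ)
    have hinj : Function.Injective code := by
      intro δ δ' h
      have h1 : ρ δ = ρ δ' := congrArg Prod.fst h
      have h2 : ∀ j k, c ((seq c δ : I → S) j) ((seq c δ : I → S) k) δ
          = c ((seq c δ' : I → S) j) ((seq c δ' : I → S) k) δ' := by
        intro j k
        exact congrFun (congrFun (congrArg Prod.snd h) j) k
      have h3 : ∀ i : I, (seq c δ : I → S) i = (seq c δ' : I → S) i ∨ ρ δ < i := by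
        intro i
        induction i using WellFoundedLT.induction with
        | ind i ih =>
        by_cases hi : ρ δ < i
        · exact Or.inr hi
        left
        have hi' : i ≤ ρ δ := not_lt.mp hi
        have ih' : ∀ j < i, (seq c δ : I → S) j = (seq c δ' : I → S) j := by
          intro j hj
          rcases ih j hj with h | h
          · exact h
          · exact absurd (hj.trans_le hi') (not_lt.mpr h.le)
        have hset : cand c δ i (fun j _ => (seq c δ : I → S) j)
            = cand c δ' i (fun j _ => (seq c δ' : I → S) j) := by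
          ext s
          constructor
          · rintro ⟨g1, g2⟩
            refine ⟨fun j hj => ?_, fun j hj k hk => ?_⟩
            · change (seq c δ' : I → S) j < s
              rw [← ih' j hj]; exact g1 j hj
            · have e1 := g2 j hj k hk
              have e2 := h2 j k
              simp only at e1 ⊢
              rw [e2, ih' j hj, ih' k hk] at e1
              exact e1
          · rintro ⟨g1, g2⟩
            refine ⟨fun j hj => ?_, fun j hj k hk => ?_⟩
            · change (seq c δ : I → S) j < s
              rw [ih' j hj]; exact g1 j hj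
            · have e1 := g2 j hj k hk
              have e2 := h2 j k
              simp only at e1 ⊢
              rw [← e2, ← ih' j hj, ← ih' k hk] at e1
              exact e1
        have hne1 : (cand c δ i (fun j _ => (seq c δ : I → S) j)).Nonempty :=
          ⟨δ, mem_cand c δ i (fun j hj => hρ2 δ j (hj.trans_le hi'))⟩
        have hne2 : (cand c δ' i (fun j _ => (seq c δ' : I → S) j)).Nonempty := hset ▸ hne1
        rw [seq_eq c δ i, seq_eq c δ' i, dif_pos hne1, dif_pos hne2]
        congr 1
      have h4 := h3 (ρ δ)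
      rcases h4 with h4 | h4
      · rw [hρ3 δ, h1, hρ3 δ'] at h4
        exact h4
      · exact absurd h4 (lt_irrefl _)
    exact absurd (Cardinal.mk_le_of_injective hinj) (not_le.mpr hcard)

end EndHom

/-- A homogeneous sequence of type `κ⁺` for triples. -/
theorem homog {C : Type u} [Finite C] (κ : Cardinal.{u}) (hκ : ℵ₀ ≤ κ) :
    ∃ L : Cardinal.{u}, ∀ (S : Type u) [LinearOrder S] [WellFoundedLT S], L < #S →
      ∀ c : S → S → S → C, ∃ h : (succ κ).ord.ToType → S, StrictMono h ∧
        ∃ col : C, ∀ i j k, i < j → j < k → c (h i) (h j) (h k) = col := by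
  classical
  let J := (succ κ).ord.ToType
  let I1 := ((2 : Cardinal.{u}) ^ #(J × (J → J → C))).ord.ToType
  refine ⟨#(I1 × (I1 → I1 → C)), fun S _ _ hS c => ?_⟩
  obtain ⟨a, ha, d, hd⟩ := endhom (I := I1) c hS
  obtain ⟨b, hb, d', hd'⟩ := endhom (S := I1) (I := J) (fun _ v w => d v w)
    (by
      have h1 := Cardinal.cantor #(J × (J → J → C))
      have h2 : #I1 = (2 : Cardinal.{u}) ^ #(J × (J → J → C)) := by simp [I1]
      rw [h2]
      exact h1)
  let g : J → C := fun j => d' j j
  have hJ : #J = succ κ := by simp [J]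
  have hreg := isRegular_succ hκ
  obtain ⟨col, hcol⟩ := infinite_pigeonhole_card g (succ κ) hJ.ge (hκ.trans (le_succ _)) (by
    rw [hreg.cof_ord]
    exact (Cardinal.lt_aleph0_of_finite C).trans_le (hκ.trans (le_succ _)))
  let H := g ⁻¹' {col}
  have htype : (succ κ).ord ≤ Ordinal.type ((· < ·) : H → H → Prop) := by
    refine le_trans ?_ (Cardinal.ord_le_type ((· < ·) : H → H → Prop))
    exact Cardinal.ord_le_ord.mpr hcol
  have hemb : Nonempty (((· < ·) : J → J → Prop) ↪r ((· < ·) : H → H → Prop)) := by
    rw [← Ordinal.type_le_iff', Ordinal.type_toType]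
    exact htype
  obtain ⟨φ⟩ := hemb
  have hφ : StrictMono φ := fun i j hij => φ.map_rel_iff.mpr hij
  refine ⟨fun i => a (b (φ i)), ?_, col, ?_⟩
  · intro i j hij
    exact ha (hb (hφ hij))
  · intro i j k hij hjk
    have h1 : b (φ i) < b (φ k) := hb (hφ (hij.trans hjk))
    have h2 : b (φ j) < b (φ k) := hb (hφ hjk)
    rw [hd _ _ _ h1 h2]
    have h3 := hd' (φ j) (φ i) (φ i) (hφ hij) (hφ hij)
    rw [h3]
    exact (φ i).2

end Pool.Agent.H1.Ideals
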