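import Mathlib
import Pool.Agent.H1.Ideals.Defs
import Pool.Agent.H1.Ideals.Ramsey

/-!
Antichains of ideals.
-/

universe u

namespace Pool.Agent.H1.Ideals

open Cardinal Order

variable {P : Type u} [PartialOrder P]

theorem diag {J : Type u} (T : Set J) (f : J → P) (K : J → Order.Ideal P)
    (h1 : ∀ s ∈ T, f s ∈ K s) (h2 : ∀ s ∈ T, ∀ t ∈ T, s ≠ t → f s ∉ K t) :
    ∀ s ∈ T, ∀ t ∈ T, s ≠ t → ¬ f s ≤ f t := by
  intro s hs t ht hst hle
  exact h2 s hs t ht hst ((K t).lower hle (h1 t ht))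

theorem codiag {J : Type u} (T : Set J) (f : J → P) (K : J → Order.Ideal P)
    (h1 : ∀ s ∈ T, f s ∉ K s) (h2 : ∀ s ∈ T, ∀ t ∈ T, s ≠ t → f s ∈ K t) :
    ∀ s ∈ T, ∀ t ∈ T, s ≠ t → ¬ f s ≤ f t := by
  intro s hs t ht hst hle
  exact h1 s hs ((K s).lower hle (h2 t ht s hs hst.symm))

theorem core {J : Type u} [LinearOrder J] [SuccOrder J] [NoMaxOrder J] (κ : Cardinal.{u})
    (hJ : κ ≤ #J) (bot t0 : J) (hbot : κ ≤ #(Set.Ioi bot)) (ht0 : κ ≤ #(Set.Iio t0))
    (G : J → Order.Ideal P) (X : J → J → P)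
    (hX1 : ∀ i j, i ≠ j → X i j ∈ G i) (hX2 : ∀ i j, i ≠ j → X i j ∉ G j)
    (p1 p2 p3 q1 q2 q3 : Prop)
    (P1 : ∀ u v w, u < v → v < w → (X v w ∈ G u ↔ p1))
    (P2 : ∀ u v w, u < v → v < w → (X u w ∈ G v ↔ p2))
    (P3 : ∀ u v w, u < v → v < w → (X u v ∈ G w ↔ p3))
    (Q1 : ∀ u v w, u < v → v < w → (X w v ∈ G u ↔ q1))
    (Q2 : ∀ u v w, u < v → v < w → (X w u ∈ G v ↔ q2))
    (Q3 : ∀ u v w, u < v → v < w → (X v u ∈ G w ↔ q3)) :
    ∃ T : Set J, κ ≤ #T ∧ ∃ f : J → P, ∀ s ∈ T, ∀ t ∈ T, s ≠ t → ¬ f s ≤ f t := by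
  by_contra hno
  have huniv : κ ≤ #(Set.univ : Set J) := by rw [Cardinal.mk_univ]; exact hJ
  have hs : ∀ s : J, s < succ s := fun s => lt_succ s
  have hgt : ∀ s t : J, s < t → t ≠ succ s → succ s < t := fun s t h h' =>
    lt_of_le_of_ne (succ_le_of_lt h) (Ne.symm h')
  have hsinj : ∀ s t : J, s ≠ t → succ s ≠ succ t := fun s t h h' => h (succ_injective h')
  have F1 : ¬ (p2 ∧ p3) := by
    rintro ⟨h2, h3⟩
    refine hno ⟨Set.Ioi bot, hbot, fun b => X bot b, codiag _ _ G ?_ ?_⟩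
    · intro b hb
      exact hX2 _ _ (ne_of_lt hb)
    · intro b hb b' hb' hne
      rcases lt_or_gt_of_ne hne with h | h
      · exact (P3 bot b b' hb h).mpr h3
      · exact (P2 bot b' b hb' h).mpr h2
  have F2 : ¬ (¬ p1 ∧ ¬ p2) := by
    rintro ⟨h1, h2⟩
    refine hno ⟨Set.Iio t0, ht0, fun a => X a t0, diag _ _ G ?_ ?_⟩
    · intro a ha
      exact hX1 _ _ (ne_of_lt ha)
    · intro a ha a' ha' hne hmem
      rcases lt_or_gt_of_ne hne with h | h
      · exact h2 ((P2 a a' t0 h ha').mp hmem)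
      · exact h1 ((P1 a' a t0 h ha).mp hmem)
  have F3 : ¬ (¬ p1 ∧ ¬ p3) := by
    rintro ⟨h1, h3⟩
    refine hno ⟨Set.univ, huniv, fun s => X s (succ s), diag _ _ G ?_ ?_⟩
    · intro s _
      exact hX1 _ _ (ne_of_lt (hs s))
    · intro s _ t _ hne hmem
      rcases lt_or_gt_of_ne hne with h | h
      · by_cases ht : t = succ s
        · subst ht
          exact hX2 _ _ (ne_of_lt (hs s)) hmem
        · exact h3 ((P3 s (succ s) t (hs s) (hgt s t h ht)).mp hmem)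
      · exact h1 ((P1 t s (succ s) h (hs s)).mp hmem)
  have F4 : ¬ (p1 ∧ p3) := by
    rintro ⟨h1, h3⟩
    refine hno ⟨Set.univ, huniv, fun s => X s (succ s), codiag _ _ (fun s => G (succ s)) ?_ ?_⟩
    · intro s _
      exact hX2 _ _ (ne_of_lt (hs s))
    · intro s _ t _ hne
      rcases lt_trichotomy (succ t) s with h | h | h
      · exact (P1 (succ t) s (succ s) h (hs s)).mpr h1
      · have := hX1 s (succ s) (ne_of_lt (hs s))
        rw [h]
        exact this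
      · exact (P3 s (succ s) (succ t) (hs s) (hgt s (succ t) h (hsinj t s hne.symm))).mpr h3
  have E1 : ¬ (q1 ∧ q2) := by
    rintro ⟨h1, h2⟩
    refine hno ⟨Set.Iio t0, ht0, fun a => X t0 a, codiag _ _ G ?_ ?_⟩
    · intro a ha
      exact hX2 _ _ (ne_of_gt ha)
    · intro a ha a' ha' hne
      rcases lt_or_gt_of_ne hne with h | h
      · exact (Q2 a a' t0 h ha').mpr h2
      · exact (Q1 a' a t0 h ha).mpr h1
  have E2 : ¬ (¬ q2 ∧ ¬ q3) := by
    rintro ⟨h2, h3⟩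
    refine hno ⟨Set.Ioi bot, hbot, fun b => X b bot, diag _ _ G ?_ ?_⟩
    · intro b hb
      exact hX1 _ _ (ne_of_gt hb)
    · intro b hb b' hb' hne hmem
      rcases lt_or_gt_of_ne hne with h | h
      · exact h3 ((Q3 bot b b' hb h).mp hmem)
      · exact h2 ((Q2 bot b' b hb' h).mp hmem)
  have E3 : ¬ (¬ q1 ∧ ¬ q3) := by
    rintro ⟨h1, h3⟩
    refine hno ⟨Set.univ, huniv, fun s => X (succ s) s, diag _ _ (fun s => G (succ s)) ?_ ?_⟩
    · intro s _
      exact hX1 _ _ (ne_of_gt (hs s))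
    · intro s _ t _ hne hmem
      rcases lt_trichotomy (succ t) s with h | h | h
      · exact h1 ((Q1 (succ t) s (succ s) h (hs s)).mp hmem)
      · rw [h] at hmem
        exact hX2 _ _ (ne_of_gt (hs s)) hmem
      · exact h3 ((Q3 s (succ s) (succ t) (hs s) (hgt s (succ t) h (hsinj t s hne.symm))).mp hmem)
  have E4 : ¬ (q1 ∧ q3) := by
    rintro ⟨h1, h3⟩
    refine hno ⟨Set.univ, huniv, fun s => X (succ s) s, codiag _ _ G ?_ ?_⟩
    · intro s _
      exact hX2 _ _ (ne_of_gt (hs s))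
    · intro s _ t _ hne
      rcases lt_or_gt_of_ne hne with h | h
      · by_cases ht : t = succ s
        · subst ht
          exact hX1 _ _ (ne_of_gt (hs s))
        · exact (Q3 s (succ s) t (hs s) (hgt s t h ht)).mpr h3
      · exact (Q1 t s (succ s) h (hs s)).mpr h1
  have hp : p1 ∧ ¬ p3 := by tauto
  have hq : ¬ q1 ∧ q3 := by tauto
  -- upper bounds
  have hz : ∀ s : J, ∃ z ∈ G (succ s), X (succ s) (succ (succ s)) ≤ z ∧ X (succ s) s ≤ z := by
    intro s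
    exact (G (succ s)).directed _ (hX1 _ _ (ne_of_lt (hs (succ s)))) _
      (hX1 _ _ (ne_of_gt (hs s)))
  choose z hz1 hz2 hz3 using hz
  refine hno ⟨Set.univ, huniv, z, diag _ _ (fun s => G (succ s)) (fun s _ => hz1 s) ?_⟩
  intro s _ t _ hne hmem
  have hne' : succ s ≠ succ t := hsinj s t hne
  rcases lt_or_gt_of_ne hne' with h | h
  · have h1 : X (succ s) (succ (succ s)) ∈ G (succ t) := (G (succ t)).lower (hz2 s) hmem
    by_cases ht : succ t = succ (succ s)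
    · rw [ht] at h1
      exact hX2 _ _ (ne_of_lt (hs (succ s))) h1
    · exact hp.2 ((P3 (succ s) (succ (succ s)) (succ t) (hs _) (hgt _ _ h ht)).mp h1)
  · have h1 : X (succ s) s ∈ G (succ t) := (G (succ t)).lower (hz3 s) hmem
    have h2 : succ t ≤ s := lt_succ_iff.mp h
    rcases lt_or_eq_of_le h2 with h3 | h3
    · exact hq.1 ((Q1 (succ t) s (succ s) h3 (hs s)).mp h1)
    · rw [h3] at h1
      exact hX2 _ _ (ne_of_gt (hs s)) h1

/-- The main theorem. -/
theorem main (μ : Cardinal.{u}) :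
    ∃ ι : Cardinal.{u}, ∀ (P : Type u) [PartialOrder P], InD μ P → InD ι (Order.Ideal P) := by
  classical
  set κ := max μ ℵ₀ with hκdef
  have hκ : ℵ₀ ≤ κ := le_max_right _ _
  obtain ⟨L, hL⟩ := homog (C := ULift.{u} (Prop × Prop × Prop × Prop × Prop × Prop)) κ hκ
  refine ⟨succ L, fun P _ hP hA => ?_⟩
  obtain ⟨A, hA, hAc⟩ := hA
  apply hP
  -- the well-ordered index set
  let S := (#A).ord.ToType
  have hS : #S = #A := by simp [S]
  obtain ⟨e⟩ := Cardinal.eq.mp hS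
  let K : S → Order.Ideal P := fun s => (e s).1
  have hK : ∀ s t, s ≠ t → ∃ a, a ∈ K s ∧ a ∉ K t := by
    intro s t hst
    have h1 : (e s).1 ≠ (e t).1 := fun h => hst (e.injective (Subtype.ext h))
    have h2 : ¬ (e s).1 ≤ (e t).1 := hA (e s).2 (e t).2 h1
    exact Set.not_subset.mp h2
  have hx : ∀ s t, ∃ a : P, s ≠ t → (a ∈ K s ∧ a ∉ K t) := by
    intro s t
    by_cases hst : s = t
    · obtain ⟨a, _⟩ := (K s).nonempty
      exact ⟨a, fun h => absurd hst h⟩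
    · obtain ⟨a, ha⟩ := hK s t hst
      exact ⟨a, fun _ => ha⟩
  choose x hx using hx
  have hSL : L < #S := by rw [hS, hAc]; exact lt_succ L
  obtain ⟨h, hmono, ⟨⟨p1, p2, p3, q1, q2, q3⟩⟩, hcol⟩ := hL S hSL (fun u v w => ULift.up
    ((x v w ∈ K u), (x u w ∈ K v), (x u v ∈ K w), (x w v ∈ K u), (x w u ∈ K v), (x v u ∈ K w)))
  have hcol' : ∀ i j k, i < j → j < k →
      ((x (h j) (h k) ∈ K (h i)) = p1 ∧ (x (h i) (h k) ∈ K (h j)) = p2 ∧
      (x (h i) (h j) ∈ K (h k)) = p3 ∧ (x (h k) (h j) ∈ K (h i)) = q1 ∧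
      (x (h k) (h i) ∈ K (h j)) = q2 ∧ (x (h j) (h i) ∈ K (h k)) = q3) := by
    intro i j k hij hjk
    have h1 := congrArg ULift.down (hcol i j k hij hjk)
    simp only [Prod.mk.injEq] at h1
    exact h1
  let J := (succ κ).ord.ToType
  have hJ : #J = succ κ := by simp [J]
  have : NoMaxOrder J := Cardinal.noMaxOrder (hκ.trans (le_succ κ))
  -- an element with `κ` predecessors
  have hlt : (κ.ord : Ordinal.{u}) < (succ κ).ord := Cardinal.ord_lt_ord.mpr (lt_succ κ)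
  have hps : Nonempty (PrincipalSeg ((· < ·) : κ.ord.ToType → κ.ord.ToType → Prop)
      ((· < ·) : J → J → Prop)) := by
    rw [← Ordinal.type_lt_iff, Ordinal.type_toType, Ordinal.type_toType]
    exact hlt
  obtain ⟨φ⟩ := hps
  have ht0 : κ ≤ #(Set.Iio φ.top) := by
    have h1 : #κ.ord.ToType = κ := by simp
    refine h1.symm.le.trans ?_
    refine Cardinal.mk_le_of_injective (f := fun i => (⟨φ i, φ.lt_top i⟩ : Set.Iio φ.top)) ?_
    intro i j hij
    exact φ.injective (congrArg Subtype.val hij)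
  -- a least element
  have : Nonempty J := ⟨φ.top⟩
  obtain ⟨bot, hbot⟩ : ∃ b : J, ∀ j, b ≤ j := by
    refine ⟨(wellFounded_lt : WellFounded ((· < ·) : J → J → Prop)).min Set.univ
      Set.univ_nonempty, fun j => ?_⟩
    exact not_lt.mp (WellFounded.not_lt_min _ _ (Set.mem_univ j))
  have hbot' : κ ≤ #(Set.Ioi bot) := by
    refine (le_succ κ).trans (hJ.symm.le.trans ?_)
    refine Cardinal.mk_le_of_injective
      (f := fun j => (⟨succ j, lt_of_le_of_lt (hbot j) (lt_succ j)⟩ : Set.Ioi bot)) ?_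
    intro i j hij
    exact succ_injective (congrArg Subtype.val hij)
  have hne : ∀ i j : J, i ≠ j → h i ≠ h j := fun i j hij hh => hij (hmono.injective hh)
  obtain ⟨T, hT, f, hf⟩ := core (J := J) κ (by rw [hJ]; exact le_succ κ) bot φ.top hbot' ht0
    (fun j => K (h j)) (fun i j => x (h i) (h j))
    (fun i j hij => (hx _ _ (hne i j hij)).1) (fun i j hij => (hx _ _ (hne i j hij)).2)
    p1 p2 p3 q1 q2 q3
    (fun u v w h1 h2 => iff_of_eq (hcol' u v w h1 h2).1)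
    (fun u v w h1 h2 => iff_of_eq (hcol' u v w h1 h2).2.1)
    (fun u v w h1 h2 => iff_of_eq (hcol' u v w h1 h2).2.2.1)
    (fun u v w h1 h2 => iff_of_eq (hcol' u v w h1 h2).2.2.2.1)
    (fun u v w h1 h2 => iff_of_eq (hcol' u v w h1 h2).2.2.2.2.1)
    (fun u v w h1 h2 => iff_of_eq (hcol' u v w h1 h2).2.2.2.2.2)
  -- a subset of size exactly `μ`
  have hμT : μ ≤ #T := (le_max_left _ _).trans hT
  obtain ⟨T', hT', hT'c⟩ := Cardinal.le_mk_iff_exists_subset.mp hμT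
  refine ⟨f '' T', ?_, ?_⟩
  · rintro _ ⟨s, hs, rfl⟩ _ ⟨t, ht, rfl⟩ hst
    have hst' : s ≠ t := fun hh => hst (by rw [hh])
    exact hf s (hT' hs) t (hT' ht) hst'
  · rw [← hT'c]
    refine Cardinal.mk_image_eq_of_injOn f T' ?_
    intro s hs t ht hst
    by_contra hne'
    exact hf s (hT' hs) t (hT' ht) hne' hst.le

end Pool.Agent.H1.Ideals
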